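import Pool.Agent.TRX.Six
import Pool.Agent.NHT.St

/-!
# TRX: a block without six independent short relations (helper62)
-/

set_option autoImplicit false
set_option linter.unusedSectionVars false

open Submodule

namespace Pool.Agent.TRX

open Pool.Agent.SPT Pool.Agent.SPT.Rel Pool.Agent.TRA Pool.Agent.TRP Pool.Agent.NHT

/-- **Module TR5**: if the classes `i` with `|a (r i)| < T` contain no cycle and no six short relations
of the block are linearly independent, then the polynomial is not zero. -/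
theorem six_block {ι V : Type} [DecidableEq ι] [DecidableEq V] [AddCommGroup V]
    [Module (ZMod 2) V] {K m : ℕ} (hK : CardReg K) (hm : 2 * m ≤ K + 1) (Q : Finset ι)
    (Cyc : Finset ι → Prop) (r : ι → V) (hB : Block Q Cyc r)
    (hrg : ∀ Y ⊆ Q.image r, TRL.Reg Y) (a u : V → ℤ) (C T : ℕ)
    (hF : Follows (Q.image r) a u C T)
    (hrel : ¬ ∃ d : Fin (m + 1) → ι → ℤ, (∀ j, Short Q (fun i => a (r i)) T (d j)) ∧
      LinearIndependent ℤ d)
    (hc : ¬ Cyc (Q.filter fun i => |a (r i)| < T)) : NZu (Q.image r) u := by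
  classical
  by_contra h
  have h0 : (0 : V) ∉ Q.image r := by
    intro h
    obtain ⟨i, hi, h1⟩ := Finset.mem_image.1 h
    exact hB.ne i hi h1
  have hsupp : span (ZMod 2) (((Q.image r).filter fun v => u v ≠ 0 : Finset V) : Set V) =
      span (ZMod 2) ((Q.image r : Finset V) : Set V) := by
    refine le_antisymm (span_mono (Finset.coe_subset.2 (Finset.filter_subset _ _))) ?_
    have h2 := (hB.co _ (Finset.filter_subset _ _)).1 hc
    unfold Co at h2
    rw [← h2]
    refine span_mono fun v hv => ?_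
    rw [Finset.mem_coe, Finset.mem_sdiff] at hv
    obtain ⟨hv1, hv2⟩ := hv
    rw [Finset.mem_coe, Finset.mem_filter]
    refine ⟨hv1, fun hu0 => hv2 ?_⟩
    obtain ⟨i, hi1, rfl⟩ := Finset.mem_image.1 hv1
    refine Finset.mem_image_of_mem _ (Finset.mem_filter.2 ⟨hi1, ?_⟩)
    by_contra hge
    push Not at hge
    refine (hF {r i} (Finset.singleton_subset_iff.2 hv1) ∅ (Finset.empty_subset _)).1 ?_ ?_
    · rw [Finset.sum_singleton, Finset.sum_empty, sub_zero]
      exact hge
    · rw [Finset.sum_singleton, Finset.sum_empty]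
      exact hu0
  obtain ⟨d, hd, hLI⟩ := six_gen K (Q.image r) (fun F hF hFc => hK V F (hrg F hF)
    ((Finset.card_le_card (Finset.erase_subset _ _)).trans hFc)) h0 u h hsupp m hm
  apply hrel
  obtain ⟨δ, hδ⟩ : ∃ δ : Fin (m + 1) → ι → ℤ, ∀ j i, δ j i = if i ∈ Q then d j (r i) else 0 :=
    ⟨_, fun _ _ => rfl⟩
  refine ⟨δ, fun j => ⟨fun i => ?_, fun i hi => ?_, ?_⟩, ?_⟩
  · rw [hδ]
    split_ifs
    · exact (hd j).1 _
    · exact Or.inr (Or.inl rfl)
  · rw [hδ, if_neg hi]
  · have h1 := (small_of_rel (Q.image r) a u C T hF (d j) (hd j)).2.2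
    rw [Finset.sum_image fun x hx y hy hxy => hB.inj hx hy hxy] at h1
    have h2 : ∑ i ∈ Q, δ j i * a (r i) = ∑ i ∈ Q, d j (r i) * a (r i) :=
      Finset.sum_congr rfl fun i hi => by rw [hδ, if_pos hi]
    rw [h2]
    exact h1
  · rw [Fintype.linearIndependent_iff] at hLI ⊢
    intro g hg
    refine hLI g ?_
    funext v
    rw [Finset.sum_apply, Pi.zero_apply]
    by_cases hv : v ∈ Q.image r
    · obtain ⟨i, hi, rfl⟩ := Finset.mem_image.1 hv
      have h1 := congrFun hg i
      rw [Finset.sum_apply, Pi.zero_apply] at h1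
      rw [← h1]
      refine Finset.sum_congr rfl fun j _ => ?_
      rw [Pi.smul_apply, Pi.smul_apply, hδ, if_pos hi]
    · refine Finset.sum_eq_zero fun j _ => ?_
      rw [Pi.smul_apply, (hd j).2.1 v hv, smul_zero]

end Pool.Agent.TRX
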